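import Mathlib
import Pool.Agent.P.MP_926215_co.Witness

set_option autoImplicit false

open Pool.Agent.P.MP_926215_co

theorem Pool.Agent.Results.MP_926215_co.D8Packings.result :
    IsGreatest (centreDensity '' {P | IsPacking P ∧ D8Invariant P}) ((2 : ℝ) ^ (-(9 / 2) : ℝ)) ∧
      ∀ P : Set E9, IsPacking P → D8Invariant P → HeightPeriodic P →
        (centreDensity P = (2 : ℝ) ^ (-(9 / 2) : ℝ) ↔ Layered P ∨ Diamond P) :=
  ⟨greatest, fun _ hP hI => (main hP hI).2⟩
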